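import Pool.Agent.R89.SR.Line

/-!
# Schneider's conjecture: small `p`-adic regulators are rare

A `Family d r` (see `Pool.Agent.Y732.Defs3`) is a Weierstrass equation over `ℤ[t₁, …, t_d]` with
`r` sections `P 0 1, …, P 0 r`, all homogeneous for some weights of the parameters, and `F.K` is
the height pairing of the sections over the function field. `Large F p T v` says that at the
parameter `v ∈ ℤ^d`, for the canonical `p`-adic height, the `p`-adic regulator of the `r` points
has norm greater than `1 / T`, and if the rank of the group of rational points is `r`, then so has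
the `p`-adic regulator of the curve.

If the pairing `F.K` is nondegenerate, then in every box with sides at least `T` at most the
proportion `2^d r |det K| p⁴ / T^(1/r)` of the parameters is marked, ordinary at `p` and not
`Large F p T`. For the family of all curves `y² + a₁ x y + a₃ y = x (x - m) (x - n)` with the
points `(0, 0)` and `(m, 0)`, `r = 2`, this holds relatively to the marked members in each residue
class modulo `p` of good ordinary reduction: at most the proportion `995328 p⁸ / T^(1/2)` of them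
is not `Large`. So the laws of the `p`-adic regulators over growing boxes do not lose mass to `0`.
-/

set_option autoImplicit false

namespace Pool.Agent.Results.MP_3550b5_nt.SmallRegulators

open Pool.Agent.Y732 Pool.Agent.R89.SR Finset

open scoped Classical in
theorem result :
    (∀ (d r : ℕ) (F : Family d r), 0 < r → F.K.det ≠ 0 →
      ∀ S : Finset ℕ, (∀ p ∈ S, p.Prime ∧ 5 ≤ p) →
      ∀ (c : Fin d → ℤ) (N : Fin d → ℕ) (T : ℕ), (∀ l, T ≤ N l) →
        (((Fintype.piFinset fun l => Ico (c l) (c l + N l)).filter fun v => F.Marked v ∧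
          ∃ p ∈ S, ∃ _ : Fact p.Prime, IsOrdinaryW p (F.curve v) ∧ ¬ Large F p T v).card : ℝ) *
            (T : ℝ) ^ ((1 : ℝ) / r) ≤
          2 ^ d * r * |(F.K.det : ℝ)| * (∑ p ∈ S, (p : ℝ) ^ 4) * ∏ l, (N l : ℝ)) ∧
    lineFamily.K.det = 3 ∧
    (∀ (p : ℕ) [Fact p.Prime], 5 ≤ p → ∀ v₀ : Fin 4 → ℤ, IsOrdinaryW p (lineFamily.curve v₀) →
      ∀ (N T : ℕ) (a b : ℤ), 4608 * p ^ 2 ≤ N → T ≤ N →
        (((Fintype.piFinset fun l =>
          Ico ((![a, 1, b, b] : Fin 4 → ℤ) l) ((![a, 1, b, b] : Fin 4 → ℤ) l + N)).filter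
            fun v => (∀ l, v l ≡ v₀ l [ZMOD p]) ∧ lineFamily.Marked v ∧
              ¬ Large lineFamily p T v).card : ℝ) * Real.sqrt T ≤
          995328 * p ^ 8 * ((Fintype.piFinset fun l =>
            Ico ((![a, 1, b, b] : Fin 4 → ℤ) l) ((![a, 1, b, b] : Fin 4 → ℤ) l + N)).filter
              fun v => (∀ l, v l ≡ v₀ l [ZMOD p]) ∧ lineFamily.Marked v).card) ∧
    (∀ (p : ℕ) [Fact p.Prime], 5 ≤ p → ∀ v₀ : Fin 4 → ℤ, IsOrdinaryW p (lineFamily.curve v₀) →
      ∀ (N : ℕ) (a b : ℤ), 4608 * p ^ 2 ≤ N →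
        N ^ 4 ≤ 10368 * p ^ 4 * ((Fintype.piFinset fun l =>
          Ico ((![a, 1, b, b] : Fin 4 → ℤ) l) ((![a, 1, b, b] : Fin 4 → ℤ) l + N)).filter
            fun v => (∀ l, v l ≡ v₀ l [ZMOD p]) ∧ lineFamily.Marked v).card) :=
  ⟨fun _ _ F hr hK S hS c N T hN => family_card_small F hr hK S hS c N T T hN le_rfl,
    lineFamily_K,
    fun _ _ hp5 v₀ ho N T a b hN hT => line_tail hp5 v₀ ho N T a b hN hT,
    fun p hp hp5 v₀ ho N a b hN => line_card a b N p hp5 hp.out hN v₀ ho.1⟩

end Pool.Agent.Results.MP_3550b5_nt.SmallRegulators
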