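import Pool.Agent.R728.RC.Each
import Pool.Agent.Results.MP_3550b5_nt.SmallRegulators

/-!
# `p`-adic regulators at ALL marked parameters in random residue classes

A `Family d r` (see `Pool.Agent.Y732.Defs3`) is a Weierstrass equation over `ℤ[t₁, …, t_d]` with
`r` sections `P 0 1, …, P 0 r`, all homogeneous for some weights of the parameters, and `F.K` is
the height pairing of the sections over the function field. `Large F p T v` says that at the
parameter `v ∈ ℤ^d`, for the canonical `p`-adic height, the `p`-adic regulator of the `r` points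
has norm greater than `1 / T`, and if the rank of the group of rational points is `r`, then so has
the `p`-adic regulator of the curve; in particular it is not zero (Schneider's conjecture).

Let `𝓜` be a set of moduli with `∑ m ^ (-s) < ∞` and let `X m` be random elements of any sets
`Y m`, each value of which has probability at most `K m ^ (-θ)`; no independence is assumed. Let
`φ m` be any maps from the integral vectors `v` to `Y m`. Consider boxes with arbitrary centres and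
the sides `2 m ^ (σ l)`, `σ l ≥ ρ`, and let `∑ σ l - ρ / r + 5 κ ≤ θ - s`. If `F.K` is
nondegenerate, then almost surely, for all but finitely many `m` in `𝓜`, for ALL marked vectors
`v` in the box with `φ m v = X m` and ALL primes `5 ≤ p ≤ m ^ κ` which are ordinary for the curve
at `v`, the `p`-adic regulators have norm greater than `m ^ (-ρ)`.

For the reduction modulo `m`, `m` running over the powers of a number, `θ = d` and `s` is any
positive number. For cubes one can take any `σ < d / (d - 1 / r)`, `κ > 0` small: the residue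
classes contain about `2 ^ d m ^ (d (σ - 1))` vectors of the cube, a power of `m` with a positive
exponent.
-/

set_option autoImplicit false

namespace Pool.Agent.Results.MP_3550b5_nt.RandomFamilies

open MeasureTheory Pool.Agent.Y732 Pool.Agent.R89.SR

/-- the integers at distance at most `R` from `c` belong to an interval of `2 ⌊R⌋ + 1` integers -/
lemma mem_box {R : ℝ} {c z : ℤ} (h : |(z : ℝ) - c| ≤ R) :
    z ∈ Finset.Ico (c - (⌊R⌋₊ : ℤ)) (c - (⌊R⌋₊ : ℤ) + ((2 * ⌊R⌋₊ + 1 : ℕ) : ℤ)) := by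
  have h1 : ((z - c).natAbs : ℝ) ≤ R := by
    rw [Nat.cast_natAbs]
    push_cast
    exact h
  have h2 : (z - c).natAbs ≤ ⌊R⌋₊ := Nat.le_floor h1
  rw [Finset.mem_Ico]
  push_cast
  omega

/-- **Theorem.** Let `F` be a family of Weierstrass equations in `d` parameters with `r ≥ 1`
sections whose height pairing over the function field is nondegenerate. Let `𝓜` be a set of
positive integers with a convergent sum of the `m ^ (-s)`, let `X m` be random elements of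
arbitrary sets `Y m`, each value of which has probability at most `K m ^ (-θ)` (no independence is
assumed), let `φ m` be any maps from the integral vectors to `Y m`, let `c m` be any integral
vectors, `0 ≤ ρ ≤ σ l` for all `l` and `∑ σ l - ρ / r + 5 κ ≤ θ - s`. Almost surely, for all but
finitely many `m` in `𝓜`, for ALL marked `v` with `|v l - c m l| ≤ m ^ (σ l)` and `φ m v = X m`
and ALL primes `p` with `5 ≤ p ≤ m ^ κ` at which the curve is ordinary, the `p`-adic regulator of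
the `r` marked points, and if the rank is `r` also the `p`-adic regulator of the curve, has norm
greater than `1 / ⌊m ^ ρ⌋`. -/
theorem result {d r : ℕ} (F : Family d r) (hr : 0 < r) (hK : F.K.det ≠ 0)
    (𝓜 : Set ℕ) (s θ K ρ κ : ℝ) (σ : Fin d → ℝ) (Ω : Type) [MeasurableSpace Ω]
    (P : Measure Ω) (Y : ℕ → Type) (X : ∀ m : ℕ, Ω → Y m) (φ : ∀ m : ℕ, (Fin d → ℤ) → Y m)
    (c : ℕ → Fin d → ℤ)
    (h0 : ∀ m ∈ 𝓜, 0 < m) (hsum : Summable fun m : 𝓜 => ((m : ℕ) : ℝ) ^ (-s))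
    (hX : ∀ m ∈ 𝓜, ∀ y : Y m, P {ω | X m ω = y} ≤ ENNReal.ofReal (K * (m : ℝ) ^ (-θ)))
    (hρ : 0 ≤ ρ) (hσ : ∀ l, ρ ≤ σ l) (h : ∑ l, σ l - ρ / r + 5 * κ ≤ θ - s) :
    ∀ᵐ ω ∂P, ∃ m₀ : ℕ, ∀ m ∈ 𝓜, m₀ ≤ m → ∀ v : Fin d → ℤ,
      (∀ l, |(v l : ℝ) - c m l| ≤ (m : ℝ) ^ σ l) → φ m v = X m ω → F.Marked v →
      ∀ (p : ℕ) (_ : Fact p.Prime), 5 ≤ p → (p : ℝ) ≤ (m : ℝ) ^ κ →
        IsOrdinaryW p (F.curve v) → Large F p ⌊(m : ℝ) ^ ρ⌋₊ v := by
  classical
  have hr0 : (0 : ℝ) < r := by exact_mod_cast hr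
  have hr1 : (1 : ℝ) ≤ r := by exact_mod_cast hr
  have hmain := Pool.Agent.R728.RC.eventually_each (𝓜 := 𝓜) (s := s) (θ := θ) (A := K)
    (D := 2 * (2 ^ d * r * |(F.K.det : ℝ)| * 3 ^ d)) (X := X) (φ := φ) (P := P)
    (F := fun m => {v : Fin d → ℤ | (∀ l, |(v l : ℝ) - c m l| ≤ (m : ℝ) ^ σ l) ∧
      F.Marked v ∧ ∃ (p : ℕ) (_ : Fact p.Prime), 5 ≤ p ∧ (p : ℝ) ≤ (m : ℝ) ^ κ ∧
        IsOrdinaryW p (F.curve v) ∧ ¬ Large F p ⌊(m : ℝ) ^ ρ⌋₊ v})
    h0 hsum hX (by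
      intro m hm
      have hm1 : (1 : ℝ) ≤ (m : ℝ) := by exact_mod_cast h0 m hm
      have hm0 : (0 : ℝ) < (m : ℝ) := by linarith
      set S : Finset ℕ := (Finset.range (⌊(m : ℝ) ^ κ⌋₊ + 1)).filter
        (fun p => p.Prime ∧ 5 ≤ p) with hS
      have hSp : ∀ p ∈ S, p.Prime ∧ 5 ≤ p := fun p hp => (Finset.mem_filter.1 hp).2
      have hT : ∀ l, ⌊(m : ℝ) ^ ρ⌋₊ ≤ (fun l => 2 * ⌊(m : ℝ) ^ σ l⌋₊ + 1) l := by
        intro l
        have := Nat.floor_le_floor (Real.rpow_le_rpow_of_exponent_le hm1 (hσ l))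
        show ⌊(m : ℝ) ^ ρ⌋₊ ≤ 2 * ⌊(m : ℝ) ^ σ l⌋₊ + 1
        omega
      have hcard := SmallRegulators.result.1 d r F hr hK S hSp
        (fun l => c m l - (⌊(m : ℝ) ^ σ l⌋₊ : ℤ)) (fun l => 2 * ⌊(m : ℝ) ^ σ l⌋₊ + 1)
        ⌊(m : ℝ) ^ ρ⌋₊ hT
      set E := (Fintype.piFinset fun l => Finset.Ico (c m l - (⌊(m : ℝ) ^ σ l⌋₊ : ℤ))
          (c m l - (⌊(m : ℝ) ^ σ l⌋₊ : ℤ) + ((2 * ⌊(m : ℝ) ^ σ l⌋₊ + 1 : ℕ) : ℤ))).filter
          fun v => F.Marked v ∧ ∃ p ∈ S, ∃ _ : Fact p.Prime,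
            IsOrdinaryW p (F.curve v) ∧ ¬ Large F p ⌊(m : ℝ) ^ ρ⌋₊ v with hE
      have hsub : {v : Fin d → ℤ | (∀ l, |(v l : ℝ) - c m l| ≤ (m : ℝ) ^ σ l) ∧
          F.Marked v ∧ ∃ (p : ℕ) (_ : Fact p.Prime), 5 ≤ p ∧ (p : ℝ) ≤ (m : ℝ) ^ κ ∧
          IsOrdinaryW p (F.curve v) ∧ ¬ Large F p ⌊(m : ℝ) ^ ρ⌋₊ v} ⊆
          (E : Set (Fin d → ℤ)) := by
        rintro v ⟨e1, e4, p, hp, e5, e6, e7, e8⟩
        rw [Finset.mem_coe, hE, Finset.mem_filter, Fintype.mem_piFinset]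
        refine ⟨fun l => mem_box (e1 l), e4, p, ?_, hp, e7, e8⟩
        rw [hS, Finset.mem_filter, Finset.mem_range]
        exact ⟨Nat.lt_succ_of_le (Nat.le_floor e6), hp.out, e5⟩
      refine ⟨E.finite_toSet.subset hsub, ?_⟩
      have hle := Set.ncard_le_ncard hsub E.finite_toSet
      rw [Set.ncard_coe_finset] at hle
      -- the sum over the primes
      have hsumS : (∑ p ∈ S, (p : ℝ) ^ 4) ≤ (m : ℝ) ^ (5 * κ) := by
        have hκ0 : (0 : ℝ) ≤ (m : ℝ) ^ κ := by positivity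
        have hSc : (S.card : ℝ) ≤ (m : ℝ) ^ κ := by
          have e1 : S ⊆ Finset.Icc 1 ⌊(m : ℝ) ^ κ⌋₊ := by
            intro p hp
            rw [hS, Finset.mem_filter, Finset.mem_range] at hp
            rw [Finset.mem_Icc]
            omega
          have e2 := Finset.card_le_card e1
          rw [Nat.card_Icc, Nat.add_sub_cancel] at e2
          exact le_trans (by exact_mod_cast e2) (Nat.floor_le hκ0)
        calc ∑ p ∈ S, (p : ℝ) ^ 4 ≤ ∑ _p ∈ S, ((m : ℝ) ^ κ) ^ 4 := by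
              apply Finset.sum_le_sum
              intro p hp
              rw [hS, Finset.mem_filter, Finset.mem_range] at hp
              have e3 : (p : ℝ) ≤ (m : ℝ) ^ κ :=
                le_trans (by exact_mod_cast Nat.lt_succ_iff.1 hp.1) (Nat.floor_le hκ0)
              gcongr
          _ = S.card * ((m : ℝ) ^ κ) ^ 4 := by rw [Finset.sum_const, nsmul_eq_mul]
          _ ≤ (m : ℝ) ^ κ * ((m : ℝ) ^ κ) ^ 4 := by gcongr
          _ = (m : ℝ) ^ (5 * κ) := by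
              rw [← pow_succ', ← Real.rpow_natCast, ← Real.rpow_mul hm0.le]
              norm_num [mul_comm]
      -- the lower bound for `T ^ (1 / r)`
      have hlow : (m : ℝ) ^ (ρ / r) / 2 ≤ ((⌊(m : ℝ) ^ ρ⌋₊ : ℕ) : ℝ) ^ ((1 : ℝ) / r) := by
        have e0 : (1 : ℝ) ≤ (m : ℝ) ^ ρ := Real.one_le_rpow hm1 hρ
        have e1 := Nat.lt_floor_add_one ((m : ℝ) ^ ρ)
        have e2 : (1 : ℝ) ≤ ((⌊(m : ℝ) ^ ρ⌋₊ : ℕ) : ℝ) := by
          exact_mod_cast Nat.le_floor (by exact_mod_cast e0)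
        have e3 : (m : ℝ) ^ ρ / 2 ≤ ((⌊(m : ℝ) ^ ρ⌋₊ : ℕ) : ℝ) := by linarith
        calc (m : ℝ) ^ (ρ / r) / 2 = (m : ℝ) ^ (ρ / r) * (1 / 2) := by ring
          _ ≤ (m : ℝ) ^ (ρ / r) * (1 / 2) ^ ((1 : ℝ) / r) := by
              apply mul_le_mul_of_nonneg_left _ (by positivity)
              calc (1 / 2 : ℝ) = (1 / 2) ^ (1 : ℝ) := by rw [Real.rpow_one]
                _ ≤ (1 / 2) ^ ((1 : ℝ) / r) := by
                    apply Real.rpow_le_rpow_of_exponent_ge (by norm_num) (by norm_num)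
                    rw [div_le_one hr0]
                    exact hr1
          _ = ((m : ℝ) ^ ρ / 2) ^ ((1 : ℝ) / r) := by
              rw [div_eq_mul_one_div ((m : ℝ) ^ ρ), Real.mul_rpow (by positivity) (by norm_num),
                ← Real.rpow_mul hm0.le, mul_one_div]
          _ ≤ ((⌊(m : ℝ) ^ ρ⌋₊ : ℕ) : ℝ) ^ ((1 : ℝ) / r) :=
              Real.rpow_le_rpow (by positivity) e3 (by positivity)
      -- the sides
      have hprod : (∏ l, (((fun l => 2 * ⌊(m : ℝ) ^ σ l⌋₊ + 1) l : ℕ) : ℝ)) ≤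
          3 ^ d * (m : ℝ) ^ (∑ l, σ l) := by
        have e1 : (3 : ℝ) ^ d * (m : ℝ) ^ (∑ l, σ l) = ∏ l : Fin d, 3 * (m : ℝ) ^ σ l := by
          rw [Finset.prod_mul_distrib, Finset.prod_const, Finset.card_univ, Fintype.card_fin,
            Real.rpow_sum_of_pos hm0]
        rw [e1]
        apply Finset.prod_le_prod (fun l _ => by positivity)
        intro l _
        have e2 := Nat.floor_le (by positivity : (0 : ℝ) ≤ (m : ℝ) ^ σ l)
        have e3 := Real.one_le_rpow hm1 (hρ.trans (hσ l))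
        push_cast
        linarith
      have hfin : (E.card : ℝ) * ((m : ℝ) ^ (ρ / r) / 2) ≤
          2 ^ d * r * |(F.K.det : ℝ)| * 3 ^ d * (m : ℝ) ^ (∑ l, σ l + 5 * κ) := by
        calc (E.card : ℝ) * ((m : ℝ) ^ (ρ / r) / 2)
            ≤ (E.card : ℝ) * ((⌊(m : ℝ) ^ ρ⌋₊ : ℕ) : ℝ) ^ ((1 : ℝ) / r) := by gcongr
          _ ≤ 2 ^ d * r * |(F.K.det : ℝ)| * (∑ p ∈ S, (p : ℝ) ^ 4) *
                ∏ l, (((fun l => 2 * ⌊(m : ℝ) ^ σ l⌋₊ + 1) l : ℕ) : ℝ) := hcard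
          _ ≤ 2 ^ d * r * |(F.K.det : ℝ)| * (m : ℝ) ^ (5 * κ) *
                (3 ^ d * (m : ℝ) ^ (∑ l, σ l)) := by
              gcongr
          _ = 2 ^ d * r * |(F.K.det : ℝ)| * 3 ^ d * (m : ℝ) ^ (∑ l, σ l + 5 * κ) := by
              rw [Real.rpow_add hm0]
              ring
      have hpos : (0 : ℝ) < (m : ℝ) ^ (ρ / r) := by positivity
      calc ((Set.ncard {v : Fin d → ℤ | (∀ l, |(v l : ℝ) - c m l| ≤ (m : ℝ) ^ σ l) ∧
            F.Marked v ∧ ∃ (p : ℕ) (_ : Fact p.Prime), 5 ≤ p ∧ (p : ℝ) ≤ (m : ℝ) ^ κ ∧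
            IsOrdinaryW p (F.curve v) ∧ ¬ Large F p ⌊(m : ℝ) ^ ρ⌋₊ v} : ℕ) : ℝ)
          ≤ (E.card : ℝ) := by exact_mod_cast hle
        _ = 2 * ((E.card : ℝ) * ((m : ℝ) ^ (ρ / r) / 2)) * (m : ℝ) ^ (-(ρ / r)) := by
            rw [Real.rpow_neg hm0.le]
            field_simp
        _ ≤ 2 * (2 ^ d * r * |(F.K.det : ℝ)| * 3 ^ d * (m : ℝ) ^ (∑ l, σ l + 5 * κ)) *
              (m : ℝ) ^ (-(ρ / r)) := by gcongr
        _ = 2 * (2 ^ d * r * |(F.K.det : ℝ)| * 3 ^ d) *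
              (m : ℝ) ^ (∑ l, σ l - ρ / r + 5 * κ) := by
            have e1 : ∑ l, σ l - ρ / r + 5 * κ = (∑ l, σ l + 5 * κ) + (-(ρ / r)) := by ring
            rw [e1, Real.rpow_add hm0 (∑ l, σ l + 5 * κ)]
            ring
        _ ≤ 2 * (2 ^ d * r * |(F.K.det : ℝ)| * 3 ^ d) * (m : ℝ) ^ (θ - s) := by
            apply mul_le_mul_of_nonneg_left _ (by positivity)
            exact Real.rpow_le_rpow_of_exponent_le hm1 h)
  filter_upwards [hmain] with ω hω
  obtain ⟨m₀, hm₀⟩ := hω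
  refine ⟨m₀, fun m hm hmm v h1 h4 h5 p hp h6 h7 h8 => ?_⟩
  by_contra hcon
  exact hm₀ m hm hmm v ⟨h1, h5, p, hp, h6, h7, h8, hcon⟩ h4

end Pool.Agent.Results.MP_3550b5_nt.RandomFamilies
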