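import Pool.Agent.R909.RandSets
import Pool.Agent.R479.DA.Lim
import Pool.Agent.Results.MP_3550b5_nt.SmallRegulators

/-!
# Schneider's conjecture: random members of families of elliptic curves

Let `F` be a family of elliptic curves with `r` sections in `d` integral parameters (a `Family d r`,
see `Pool.Agent.Y732.Defs3`) whose height pairing over the function field is nondegenerate. Let
`η > 0` and `γ > d - 1 / r + 5 η`, and let `A` be a random set of parameters which contains `v` with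
probability `O (|v| ^ (-γ))`. Almost surely the following holds for all but finitely many marked
`v ∈ A` and ALL primes `5 ≤ p ≤ |v| ^ η` of good ordinary reduction: for the canonical `p`-adic
height, the `p`-adic regulator of the `r` points at `v` has norm greater than `1 / |v|`, and if the
rank of the group of rational points is `r`, then so has the `p`-adic regulator of the curve; in
particular they do not vanish.
-/

set_option autoImplicit false

namespace Pool.Agent.Results.MP_3550b5_nt.RandomParameters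

open Filter Topology MeasureTheory
open Pool.Agent.Y732 Pool.Agent.R89.SR

/-- the size of a parameter: one plus the largest absolute value of a coordinate -/
def size {d : ℕ} (v : Fin d → ℤ) : ℕ := (Finset.univ.sup fun l => (v l).natAbs) + 1

/-- `v` belongs to the random set `A` with probability at most `C * |v| ^ (-γ)` -/
def Sparse {Ω : Type} [MeasurableSpace Ω] {d : ℕ} (P : Measure Ω) (A : Ω → Set (Fin d → ℤ))
    (γ C : ℝ) : Prop :=
  ∀ v : Fin d → ℤ, P {ω | v ∈ A ω} ≤ ENNReal.ofReal (C * (size v : ℝ) ^ (-γ))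

/-- The member at `v` is marked, and for some prime `5 ≤ p ≤ |v| ^ η` of good ordinary reduction, for
some canonical `p`-adic height, the regulator of the `r` points at `v` has norm at most `1 / |v|`, or
the rank is `r` and the regulator of the curve has norm at most `1 / |v|`. -/
def Bad {d r : ℕ} (F : Family d r) (η : ℝ) (v : Fin d → ℤ) : Prop :=
  F.Marked v ∧ ∃ p : ℕ, 5 ≤ p ∧ (p : ℝ) ≤ (size v : ℝ) ^ η ∧
    ∃ _ : Fact p.Prime, IsOrdinaryW p (F.curve v) ∧ ¬ Large F p (size v) v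

lemma Large.mono {d r : ℕ} {F : Family d r} {p : ℕ} [Fact p.Prime] {T T' : ℕ} {v : Fin d → ℤ}
    (hT : T ≤ T') (h : Large F p T v) : Large F p T' v := by
  have hTT : (T : ℝ) ≤ (T' : ℝ) := by exact_mod_cast hT
  intro g hg
  obtain ⟨h1, h2⟩ := h g hg
  refine ⟨h1.trans_le (mul_le_mul_of_nonneg_right hTT (norm_nonneg _)), ?_⟩
  intro h3 s c h4 h5
  exact (h2 h3 s c h4 h5).trans_le (mul_le_mul_of_nonneg_right hTT (norm_nonneg _))

/-- from a count between `X / 2` and `X` to a count up to `X` -/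
lemma count_of_half {f : ℝ → ℝ} (hmono : ∀ X Y : ℝ, X ≤ Y → f X ≤ f Y) {C s : ℝ} (hs : 0 < s)
    (h : ∀ X : ℝ, 1 ≤ X → f X ≤ f (X / 2) + C * X ^ s) :
    ∃ M : ℝ, ∀ X : ℝ, 1 ≤ X → f X ≤ M * X ^ s := by
  set q : ℝ := (1 / 2 : ℝ) ^ s with hq
  have hq0 : 0 ≤ q := Real.rpow_nonneg (by norm_num) _
  have hq1 : q < 1 := Real.rpow_lt_one (by norm_num) (by norm_num) hs
  set M : ℝ := max (|C| / (1 - q)) (f 2) with hM
  have hM0 : 0 ≤ M := le_trans (div_nonneg (abs_nonneg C) (by linarith)) (le_max_left _ _)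
  have hCM : C ≤ M * (1 - q) := by
    have h1 : |C| / (1 - q) ≤ M := le_max_left _ _
    rw [div_le_iff₀ (by linarith)] at h1
    exact (le_abs_self C).trans h1
  have hsmall : ∀ X : ℝ, 1 ≤ X → X ≤ 2 → f X ≤ M * X ^ s := by
    intro X hX hXX
    have h1 : 1 ≤ X ^ s := Real.one_le_rpow hX hs.le
    calc f X ≤ f 2 := hmono _ _ hXX
      _ ≤ M := le_max_right _ _
      _ = M * 1 := (mul_one M).symm
      _ ≤ M * X ^ s := mul_le_mul_of_nonneg_left h1 hM0
  have key : ∀ n : ℕ, ∀ X : ℝ, 1 ≤ X → X ≤ 2 * 2 ^ n → f X ≤ M * X ^ s := by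
    intro n
    induction n with
    | zero =>
      intro X hX hXX
      exact hsmall X hX (by simpa using hXX)
    | succ n ih =>
      intro X hX hXX
      by_cases h1 : X ≤ 2
      · exact hsmall X hX h1
      push Not at h1
      have hX0 : 0 ≤ X := by linarith
      have h2 : 1 ≤ X / 2 := by linarith
      have h3 : X / 2 ≤ 2 * 2 ^ n := by
        rw [pow_succ] at hXX
        linarith
      have h4 := ih _ h2 h3
      have h5 : (X / 2) ^ s = q * X ^ s := by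
        rw [hq, div_eq_mul_one_div, Real.mul_rpow hX0 (by norm_num), mul_comm]
      rw [h5] at h4
      have h6 : 0 ≤ X ^ s := Real.rpow_nonneg hX0 _
      have h7 : C * X ^ s ≤ M * (1 - q) * X ^ s := mul_le_mul_of_nonneg_right hCM h6
      calc f X ≤ f (X / 2) + C * X ^ s := h X hX
        _ ≤ M * (q * X ^ s) + M * (1 - q) * X ^ s := add_le_add h4 h7
        _ = M * X ^ s := by ring
  refine ⟨M, fun X hX => ?_⟩
  obtain ⟨n, hn⟩ := pow_unbounded_of_one_lt X (by norm_num : (1 : ℝ) < 2)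
  refine key n X hX ?_
  have h1 : (0 : ℝ) < 2 ^ n := by positivity
  linarith

/-- the number of bad parameters of size between `X / 2` and `X` -/
lemma block {d r : ℕ} (F : Family d r) (hr : 0 < r) (hK : F.K.det ≠ 0) {η : ℝ} (hη : 0 < η)
    {X : ℝ} (hX : 1 ≤ X) :
    {v : Fin d → ℤ | Bad F η v ∧ (size v : ℝ) ≤ X ∧ X / 2 < (size v : ℝ)}.Finite ∧
    (({v : Fin d → ℤ | Bad F η v ∧ (size v : ℝ) ≤ X ∧ X / 2 < (size v : ℝ)}.ncard : ℕ) : ℝ) ≤
      (2 ^ d * r * |(F.K.det : ℝ)| * 2 ^ d * 2) * X ^ ((d : ℝ) - 1 / r + 5 * η) := by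
  classical
  have hX0 : 0 < X := by linarith
  obtain ⟨N, hN⟩ : ∃ N : ℕ, N = ⌊X⌋₊ := ⟨_, rfl⟩
  have hN1 : 1 ≤ N := by
    rw [hN]
    exact Nat.one_le_floor_iff X |>.2 hX
  have hNX : (N : ℝ) ≤ X := by
    rw [hN]
    exact Nat.floor_le hX0.le
  obtain ⟨T, hT⟩ : ∃ T : ℕ, T = ⌊X / 2⌋₊ + 1 := ⟨_, rfl⟩
  have hT2 : T ≤ 2 * N := by
    have h1 : ⌊X / 2⌋₊ ≤ ⌊X⌋₊ := Nat.floor_le_floor (by linarith)
    omega
  have hTX : X / 2 ≤ (T : ℝ) := by
    rw [hT]
    push_cast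
    exact (Nat.lt_floor_add_one _).le
  obtain ⟨S, hS⟩ : ∃ S : Finset ℕ, S = (Finset.Icc 5 ⌊X ^ η⌋₊).filter Nat.Prime := ⟨_, rfl⟩
  have hXη : 1 ≤ X ^ η := Real.one_le_rpow hX hη.le
  have hSum : (∑ p ∈ S, (p : ℝ) ^ 4) ≤ X ^ (5 * η) := by
    have h1 : ∀ p ∈ S, (p : ℝ) ^ 4 ≤ (X ^ η) ^ 4 := by
      intro p hp
      rw [hS, Finset.mem_filter, Finset.mem_Icc] at hp
      have h2 : (p : ℝ) ≤ X ^ η :=
        (Nat.le_floor_iff (by linarith)).1 hp.1.2
      exact pow_le_pow_left₀ (Nat.cast_nonneg _) h2 4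
    have h2 : (S.card : ℝ) ≤ X ^ η := by
      have h3 : S.card ≤ ⌊X ^ η⌋₊ := by
        rw [hS]
        refine (Finset.card_filter_le _ _).trans ?_
        rw [Nat.card_Icc]
        omega
      exact le_trans (by exact_mod_cast h3) (Nat.floor_le (by linarith))
    calc (∑ p ∈ S, (p : ℝ) ^ 4) ≤ S.card • (X ^ η) ^ 4 := Finset.sum_le_card_nsmul _ _ _ h1
      _ = S.card * (X ^ η) ^ 4 := by rw [nsmul_eq_mul]
      _ ≤ X ^ η * (X ^ η) ^ 4 := mul_le_mul_of_nonneg_right h2 (by positivity)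
      _ = (X ^ η) ^ 5 := by ring
      _ = X ^ (5 * η) := by
          rw [← Real.rpow_natCast (X ^ η) 5, ← Real.rpow_mul hX0.le]
          congr 1
          push_cast
          ring
  obtain ⟨Bx, hBx⟩ : ∃ Bx : Finset (Fin d → ℤ), Bx =
      (Fintype.piFinset fun l => Finset.Ico ((fun _ : Fin d => -(N : ℤ)) l)
        ((fun _ : Fin d => -(N : ℤ)) l + (((fun _ : Fin d => 2 * N) l : ℕ) : ℤ))).filter
        fun v => F.Marked v ∧
          ∃ p ∈ S, ∃ _ : Fact p.Prime, IsOrdinaryW p (F.curve v) ∧ ¬ Large F p T v := ⟨_, rfl⟩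
  have h1 := family_card_small F hr hK S (by
    intro p hp
    rw [hS, Finset.mem_filter, Finset.mem_Icc] at hp
    exact ⟨hp.2, hp.1.1⟩) (fun _ => -(N : ℤ)) (fun _ => 2 * N) T T (fun _ => hT2) le_rfl
  rw [← hBx] at h1
  have hsub : {v : Fin d → ℤ | Bad F η v ∧ (size v : ℝ) ≤ X ∧ X / 2 < (size v : ℝ)} ⊆
      (Bx : Set (Fin d → ℤ)) := by
    rintro v ⟨⟨h2, p, h3, h4, h5, h6, h7⟩, h8, h9⟩
    have h10 : size v ≤ N := by
      rw [hN]
      exact Nat.le_floor h8
    have h11 : T ≤ size v := by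
      rw [hT]
      exact (Nat.floor_lt (by linarith)).2 h9
    rw [hBx, Finset.mem_coe, Finset.mem_filter, Fintype.mem_piFinset]
    refine ⟨fun l => ?_, h2, p, ?_, h5, h6, fun h12 => h7 (Large.mono h11 h12)⟩
    · have h12 : (v l).natAbs ≤ Finset.univ.sup fun l => (v l).natAbs :=
        Finset.le_sup (f := fun l => (v l).natAbs) (Finset.mem_univ l)
      have h13 : (v l).natAbs + 1 ≤ N := le_trans (by unfold size; omega) h10
      rw [Finset.mem_Ico]
      dsimp only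
      push_cast
      omega
    · rw [hS, Finset.mem_filter, Finset.mem_Icc]
      refine ⟨⟨h3, Nat.le_floor (h4.trans ?_)⟩, h5.out⟩
      exact Real.rpow_le_rpow (Nat.cast_nonneg _) h8 hη.le
  refine ⟨Bx.finite_toSet.subset hsub, ?_⟩
  have h2 := Set.ncard_le_ncard hsub Bx.finite_toSet
  rw [Set.ncard_coe_finset] at h2
  have h3 : (({v : Fin d → ℤ | Bad F η v ∧ (size v : ℝ) ≤ X ∧
      X / 2 < (size v : ℝ)}.ncard : ℕ) : ℝ) ≤ (Bx.card : ℝ) := by exact_mod_cast h2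
  refine h3.trans ?_
  have hr0 : (0 : ℝ) < r := by exact_mod_cast hr
  have hr1 : (1 : ℝ) ≤ r := by exact_mod_cast hr
  -- the power of `T`
  have h4 : X ^ ((1 : ℝ) / r) / 2 ≤ (T : ℝ) ^ ((1 : ℝ) / r) := by
    have h5 : (X / 2) ^ ((1 : ℝ) / r) ≤ (T : ℝ) ^ ((1 : ℝ) / r) :=
      Real.rpow_le_rpow (by linarith) hTX (by positivity)
    have h6 : (2 : ℝ) ^ ((1 : ℝ) / r) ≤ 2 := by
      calc (2 : ℝ) ^ ((1 : ℝ) / r) ≤ (2 : ℝ) ^ (1 : ℝ) :=
            Real.rpow_le_rpow_of_exponent_le (by norm_num) (by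
              rw [div_le_one hr0]
              exact hr1)
        _ = 2 := Real.rpow_one 2
    refine le_trans ?_ h5
    rw [Real.div_rpow hX0.le (by norm_num)]
    exact div_le_div_of_nonneg_left (Real.rpow_nonneg hX0.le _) (by positivity) h6
  have h5 : (∏ l : Fin d, (((fun _ : Fin d => 2 * N) l : ℕ) : ℝ)) ≤ 2 ^ d * X ^ (d : ℝ) := by
    rw [Finset.prod_const, Finset.card_univ, Fintype.card_fin, Real.rpow_natCast, ← mul_pow]
    refine pow_le_pow_left₀ (Nat.cast_nonneg _) ?_ d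
    push_cast
    linarith
  have h6 : (Bx.card : ℝ) * (X ^ ((1 : ℝ) / r) / 2) ≤
      2 ^ d * r * |(F.K.det : ℝ)| * X ^ (5 * η) * (2 ^ d * X ^ (d : ℝ)) := by
    calc (Bx.card : ℝ) * (X ^ ((1 : ℝ) / r) / 2) ≤ (Bx.card : ℝ) * (T : ℝ) ^ ((1 : ℝ) / r) :=
          mul_le_mul_of_nonneg_left h4 (Nat.cast_nonneg _)
      _ ≤ _ := h1
      _ ≤ _ := by
          refine mul_le_mul (mul_le_mul_of_nonneg_left hSum (by positivity)) h5
            (Finset.prod_nonneg fun _ _ => Nat.cast_nonneg _) (by positivity)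
  have h7 : 0 < X ^ ((1 : ℝ) / r) := Real.rpow_pos_of_pos hX0 _
  have h8 : X ^ ((d : ℝ) - 1 / r + 5 * η) * X ^ ((1 : ℝ) / r) = X ^ (d : ℝ) * X ^ (5 * η) := by
    rw [← Real.rpow_add hX0, ← Real.rpow_add hX0]
    congr 1
    ring
  have h9 : (Bx.card : ℝ) * X ^ ((1 : ℝ) / r) ≤
      (2 ^ d * r * |(F.K.det : ℝ)| * 2 ^ d * 2) * X ^ ((d : ℝ) - 1 / r + 5 * η) *
        X ^ ((1 : ℝ) / r) := by
    rw [mul_assoc _ (X ^ ((d : ℝ) - 1 / r + 5 * η)), h8]
    nlinarith
  exact le_of_mul_le_mul_right h9 h7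

/-- **Schneider's conjecture for random members of families.** Let `F` be a family with `d ≥ 1`
parameters and `r ≥ 1` sections whose height pairing is nondegenerate, `η > 0` and
`γ > d - 1 / r + 5 η`. If the random set `A` contains each parameter `v` with probability at most
`C |v| ^ (-γ)`, then almost surely only finitely many `v ∈ A` are bad, and the probability that `A`
contains a bad `v` with `|v| ≥ y` is `O (y ^ (-(γ - (d - 1 / r + 5 η)) / 2))`. -/
theorem result (d r : ℕ) (F : Family d r) (hd : 0 < d) (hr : 0 < r) (hK : F.K.det ≠ 0) (η γ : ℝ)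
    (hη : 0 < η) (hγ : (d : ℝ) - 1 / r + 5 * η < γ) (Ω : Type) [MeasurableSpace Ω]
    (P : Measure Ω) (A : Ω → Set (Fin d → ℤ)) (C : ℝ) (hA : Sparse P A γ C) :
    (∀ᵐ ω ∂P, {v : Fin d → ℤ | v ∈ A ω ∧ Bad F η v}.Finite) ∧
    ∃ D : ℝ, ∀ y : ℝ, 1 ≤ y →
      P {ω | ∃ v : Fin d → ℤ, v ∈ A ω ∧ y ≤ (size v : ℝ) ∧ Bad F η v} ≤
        ENNReal.ofReal (D * y ^ (-((γ - ((d : ℝ) - 1 / r + 5 * η)) / 2))) := by
  classical
  obtain ⟨s, hs⟩ : ∃ s : ℝ, s = (d : ℝ) - 1 / r + 5 * η := ⟨_, rfl⟩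
  have hr0 : (0 : ℝ) < r := by exact_mod_cast hr
  have hs0 : 0 < s := by
    have h1 : (1 : ℝ) ≤ d := by exact_mod_cast hd
    have h2 : (1 : ℝ) / r ≤ 1 := by
      rw [div_le_one hr0]
      exact_mod_cast hr
    rw [hs]
    linarith
  rw [← hs] at hγ ⊢
  have hone : ∀ v : Fin d → ℤ, (1 : ℝ) ≤ (size v : ℝ) := by
    intro v
    unfold size
    push_cast
    have : (0 : ℝ) ≤ ((Finset.univ.sup fun l => (v l).natAbs : ℕ) : ℝ) := Nat.cast_nonneg _
    linarith
  have hfin : ∀ X : ℝ, {v : Fin d → ℤ | Bad F η v ∧ (size v : ℝ) ≤ X}.Finite := by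
    intro X
    refine (Set.Finite.subset (Fintype.piFinset fun _ : Fin d =>
      Finset.Icc (-(⌊X⌋₊ : ℤ)) ⌊X⌋₊).finite_toSet ?_)
    rintro v ⟨-, h1⟩
    have h2 : size v ≤ ⌊X⌋₊ := Nat.le_floor h1
    rw [Finset.mem_coe, Fintype.mem_piFinset]
    intro l
    have h12 : (v l).natAbs ≤ Finset.univ.sup fun l => (v l).natAbs :=
      Finset.le_sup (f := fun l => (v l).natAbs) (Finset.mem_univ l)
    have h13 : (v l).natAbs + 1 ≤ ⌊X⌋₊ := le_trans (by unfold size; omega) h2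
    rw [Finset.mem_Icc]
    omega
  obtain ⟨M, hM⟩ := count_of_half
    (f := fun X : ℝ => (({v : Fin d → ℤ | Bad F η v ∧ (size v : ℝ) ≤ X}.ncard : ℕ) : ℝ))
    (fun X Y hXY => by
      have hsub : {v : Fin d → ℤ | Bad F η v ∧ (size v : ℝ) ≤ X} ⊆
          {v : Fin d → ℤ | Bad F η v ∧ (size v : ℝ) ≤ Y} := fun z hz => ⟨hz.1, hz.2.trans hXY⟩
      exact_mod_cast Set.ncard_le_ncard hsub (hfin Y))
    (C := 2 ^ d * r * |(F.K.det : ℝ)| * 2 ^ d * 2) hs0 (fun X hX => by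
      obtain ⟨h1, h2⟩ := block F hr hK hη hX
      rw [← hs] at h2
      have h4 : {v : Fin d → ℤ | Bad F η v ∧ (size v : ℝ) ≤ X} ⊆
          {v : Fin d → ℤ | Bad F η v ∧ (size v : ℝ) ≤ X / 2} ∪
            {v : Fin d → ℤ | Bad F η v ∧ (size v : ℝ) ≤ X ∧ X / 2 < (size v : ℝ)} := by
        rintro z ⟨h5, h6⟩
        by_cases h7 : (size z : ℝ) ≤ X / 2
        · exact Or.inl ⟨h5, h7⟩
        · exact Or.inr ⟨h5, h6, not_le.1 h7⟩
      have h5 := (Set.ncard_le_ncard h4 ((hfin _).union h1)).trans (Set.ncard_union_le _ _)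
      have h6 : (({v : Fin d → ℤ | Bad F η v ∧ (size v : ℝ) ≤ X}.ncard : ℕ) : ℝ) ≤
          (({v : Fin d → ℤ | Bad F η v ∧ (size v : ℝ) ≤ X / 2}.ncard : ℕ) : ℝ) +
            (({v : Fin d → ℤ | Bad F η v ∧ (size v : ℝ) ≤ X ∧
              X / 2 < (size v : ℝ)}.ncard : ℕ) : ℝ) := by exact_mod_cast h5
      linarith)
  have hsum : Summable fun v : {v : Fin d → ℤ // Bad F η v} =>
      ((size v.1 : ℕ) : ℝ) ^ (-(s + (γ - s) / 2)) := by
    refine Pool.Agent.R479.DA.summable_heights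
      (fun v : {v : Fin d → ℤ // Bad F η v} => ((size v.1 : ℕ) : ℝ))
      (fun v => hone v.1) (s := s) (p := s + (γ - s) / 2) (C := M)
      (by linarith) (by linarith) (fun X hX => ?_)
    have hmaps : Set.MapsTo Subtype.val
        {v : {v : Fin d → ℤ // Bad F η v} | ((size v.1 : ℕ) : ℝ) ≤ X}
        {v : Fin d → ℤ | Bad F η v ∧ (size v : ℝ) ≤ X} := fun z hz => ⟨z.2, hz⟩
    have hinj : Set.InjOn Subtype.val
        {v : {v : Fin d → ℤ // Bad F η v} | ((size v.1 : ℕ) : ℝ) ≤ X} :=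
      Subtype.val_injective.injOn
    refine ⟨(hfin X).of_injOn hmaps hinj, ?_⟩
    have h1 := Set.ncard_le_ncard_of_injOn _ hmaps hinj (hfin X)
    exact le_trans (by exact_mod_cast h1) (hM X hX)
  obtain ⟨h1, D, h2⟩ := Pool.Agent.R909.RS.single (P := P)
    (nm := fun v : Fin d → ℤ => (size v : ℝ)) (A := A) (γ := γ) (C := C) (fun x _ => hA x)
    (Q := fun v => Bad F η v) (H := fun v => ((size v : ℕ) : ℝ))
    (fun z _ => hone z) (u := fun z => z) (K := 1) one_pos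
    (fun z _ => by rw [one_mul]) (by linarith) (p := s + (γ - s) / 2) (η := (γ - s) / 2)
    (by linarith) (by linarith) hsum
  refine ⟨?_, D, fun y hy => ?_⟩
  · filter_upwards [h1] with ω hω
    exact hω.subset fun z hz => ⟨hz.2, hz.1⟩
  · refine le_trans (measure_mono ?_) (h2 y hy)
    rintro ω ⟨z, h3, h4, h5⟩
    exact ⟨z, h5, h4, h3⟩

end Pool.Agent.Results.MP_3550b5_nt.RandomParameters
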